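import Pool.Agent.Y969.SM.FinD

set_option autoImplicit false

/-!
# The eighth moment of zeta with two factors `|ζ|²` at generic distances
-/

namespace Pool.Agent.Results.MP_56b8f5_nt.TwoGenericShifts

open Complex MeasureTheory

noncomputable section

/-- The mean over `[0, T]` of `|ζ(1/2 + it)|⁴ |ζ(1/2 + i(t + a))|² |ζ(1/2 + i(t + b))|²`. At
`a = b = 0` it is `M_4(T)`. -/
def moment (T a b : ℝ) : ℝ :=
  1 / T * ∫ t in (0:ℝ)..T, ‖riemannZeta (1 / 2 + I * t)‖ ^ 4 *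
    (‖riemannZeta (1 / 2 + I * (t + a))‖ ^ 2 * ‖riemannZeta (1 / 2 + I * (t + b))‖ ^ 2)

/-- The local density at the prime `p`: the mean over the unit circle of the product of the
normalised local factors at `p`. -/
def localDensity (a b : ℝ) (p : ℕ) : ℝ :=
  (1 - 1 / (p : ℝ)) ^ 6 * ∫ θ in (0:ℝ)..1,
    1 / (‖1 - exp (2 * Real.pi * I * θ) * (p : ℂ) ^ (-(1 / 2) : ℂ)‖ ^ 4 *
      (‖1 - exp (2 * Real.pi * I * θ) * (p : ℂ) ^ (-(1 / 2 + I * a))‖ ^ 2 *
        ‖1 - exp (2 * Real.pi * I * θ) * (p : ℂ) ^ (-(1 / 2 + I * b))‖ ^ 2))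

/-- The product of the local densities over the primes up to `log T`. -/
def density (T a b : ℝ) : ℝ :=
  ∏ p ∈ (Finset.range (⌊Real.log T⌋₊ + 1)).filter Nat.Prime, localDensity a b p

/-- The zeta factor of the main term. -/
def zetaFactor (a b : ℝ) : ℝ :=
  ‖riemannZeta (1 + I * a)‖ ^ 4 * ‖riemannZeta (1 + I * b)‖ ^ 4 * ‖riemannZeta (1 + I * (a - b))‖ ^ 2

/-- The local factor of `A(a, b)`: the local density over the Euler factor of `zetaFactor a b`. -/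
def localFactor (a b : ℝ) (p : ℕ) : ℝ :=
  localDensity a b p * (‖1 - (p : ℂ) ^ (-(1 + I * a))‖ ^ 4 * ‖1 - (p : ℂ) ^ (-(1 + I * b))‖ ^ 4 *
    ‖1 - (p : ℂ) ^ (-(1 + I * (a - b)))‖ ^ 2)

/-- The arithmetic factor `A(a, b)`. -/
def arithmeticFactor (a b : ℝ) : ℝ := ∏' p : Nat.Primes, localFactor a b p

/-- (1) The product defining `A(a, b)` converges absolutely and uniformly in `a, b`.
(2) The mean over `(a, b) ∈ [0, T]²` of `|moment T a b / (log T)⁶ - density T a b / 12|` tends to `0`.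
(3) `moment T a b` is asymptotic to `A(a, b) * zetaFactor a b * (log T)⁶ / 12`, up to the factor
`1 + O(ε)`, for all `(a, b) ∈ [0, T]²` outside a set of measure at most `ε T²`. -/
theorem result :
    (∃ C : ℝ, ∀ a b : ℝ, ∀ p : ℕ, p.Prime → |localFactor a b p - 1| ≤ C / (p : ℝ) ^ 2) ∧
    ∀ ε : ℝ, 0 < ε → ∃ T₀ : ℝ, ∀ T : ℝ, T₀ ≤ T →
      IntegrableOn (fun x : ℝ × ℝ => |moment T x.1 x.2 / Real.log T ^ 6 - 1 / 12 * density T x.1 x.2|)
        (Set.Icc 0 T ×ˢ Set.Icc 0 T) ∧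
      ∫ x in Set.Icc 0 T ×ˢ Set.Icc 0 T,
        |moment T x.1 x.2 / Real.log T ^ 6 - 1 / 12 * density T x.1 x.2| ≤ ε * T ^ 2 ∧
      volume {x : ℝ × ℝ | x ∈ Set.Icc 0 T ×ˢ Set.Icc 0 T ∧
        ¬ |moment T x.1 x.2 / (1 / 12 * arithmeticFactor x.1 x.2 * zetaFactor x.1 x.2 *
          Real.log T ^ 6) - 1| ≤ ε} ≤ ENNReal.ofReal (ε * T ^ 2) := by
  obtain ⟨h1, h2⟩ := Pool.Agent.Y969.SM.res_two Pool.Agent.Y969.SM.main Pool.Agent.Y969.SM.rel
    Pool.Agent.Y969.SM.aa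
  have e1 : ∀ (a b : ℝ) (p : ℕ), Pool.Agent.Y969.SM.loc ![a, b] p = localDensity a b p := by
    intro a b p
    simp only [Pool.Agent.Y969.SM.loc, localDensity, Fin.prod_univ_two, Matrix.cons_val_zero,
      Matrix.cons_val_one]
  have hI0 : (Finset.Ioi (0 : Fin 2)) = {1} := by decide
  have hI1 : (Finset.Ioi (1 : Fin 2)) = ∅ := by decide
  have e2 : ∀ (a b : ℝ) (p : ℕ), Pool.Agent.Y969.SM.ep ![a, b] p =
      ‖1 - (p : ℂ) ^ (-(1 + I * a))‖ ^ 4 * ‖1 - (p : ℂ) ^ (-(1 + I * b))‖ ^ 4 *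
        ‖1 - (p : ℂ) ^ (-(1 + I * (a - b)))‖ ^ 2 := by
    intro a b p
    simp only [Pool.Agent.Y969.SM.ep, Fin.prod_univ_two, hI0, hI1, Finset.prod_empty, mul_one,
      Finset.prod_singleton, Matrix.cons_val_zero, Matrix.cons_val_one]
  have e3 : ∀ a b : ℝ, Pool.Agent.Y969.SM.zp ![a, b] = zetaFactor a b := by
    intro a b
    simp only [Pool.Agent.Y969.SM.zp, zetaFactor, Fin.prod_univ_two, hI0, hI1, Finset.prod_empty, mul_one,
      Finset.prod_singleton, Matrix.cons_val_zero, Matrix.cons_val_one]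
  have e4 : ∀ a b : ℝ, Pool.Agent.Y969.SM.AA ![a, b] = arithmeticFactor a b := by
    intro a b
    simp only [Pool.Agent.Y969.SM.AA, arithmeticFactor, localFactor, e1, e2]
  have e5 : ∀ T a b : ℝ, Pool.Agent.Y969.SM.SS (Real.log T) ![a, b] = density T a b := by
    intro T a b
    simp only [Pool.Agent.Y969.SM.SS, density, e1]
  have e6 : ∀ T a b X : ℝ, moment T a b / X = (∫ t in (0:ℝ)..T, ‖riemannZeta (1 / 2 + I * t)‖ ^ 4 *
      (‖riemannZeta (1 / 2 + I * (t + a))‖ ^ 2 * ‖riemannZeta (1 / 2 + I * (t + b))‖ ^ 2)) / (T * X) := by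
    intro T a b X
    rw [moment, one_div, ← div_eq_inv_mul, div_div]
  have e7 : ∀ T a b L : ℝ, T * (a * b * L) = a * b * (T * L) := fun T a b L => by ring
  refine ⟨?_, fun ε hε => ?_⟩
  · obtain ⟨C, h1⟩ := h1
    refine ⟨C, fun a b p hp => ?_⟩
    have := h1 a b p hp
    rwa [e1, e2] at this
  · obtain ⟨T₀, h2⟩ := h2 ε hε
    refine ⟨T₀, fun T hT => ?_⟩
    have := h2 T hT
    simp only [e3, e4, e5] at this
    simp only [e6, e7]
    exact this

end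

end Pool.Agent.Results.MP_56b8f5_nt.TwoGenericShifts
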